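import Pool.Graph.R_seed8.R295.HM.CondExp

/-!
# MP_0a1256_an: failure over every unital C*-algebra other than `ℂ`

Let `B` be a unital C*-algebra, regarded as a Hilbert module over itself, and let `f` be any
hermitian linear functional on `B` with `f 1 = 1`. Then `x ↦ f x • 1` is a linear idempotent of `B`
onto the closed ternary subspace `ℂ 1` which satisfies the ternary identity. If `B ≠ ℂ 1`, the value
of `f` at a given selfadjoint element which is not a scalar is arbitrary; if `B` has infinite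
dimension, `f` can be discontinuous.
-/

set_option autoImplicit false

open Pool.Agent.R295.HM

universe u

namespace Pool.Agent.Results.MP_0a1256_an.EveryUnitalAlgebra

/-- `P` is a linear idempotent of the Hilbert module `E` with range `F` which satisfies the ternary
identity `P (P x ⟨y, P z⟩) = P x ⟨P y, P z⟩`. -/
structure IsTernaryIdempotent {B E : Type u} [NonUnitalCStarAlgebra B] [NormedAddCommGroup E]
    [NormedSpace ℂ E] [CompleteSpace E] (H : HilbertModule B E) (F : Submodule ℂ E)
    (P : E →ₗ[ℂ] E) : Prop where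
  idem : ∀ x, P (P x) = P x
  range : LinearMap.range P = F
  ident : ∀ x y z : E, P (H.act (P x) (H.ip y (P z))) = H.act (P x) (H.ip (P y) (P z))

/-- `P` is a conditional expectation of `E` onto `F`: the `21`-corner of a blockwise conditional
expectation between the reduced linking algebras. -/
def IsCondExp {B E : Type u} [NonUnitalCStarAlgebra B] [NormedAddCommGroup E]
    [NormedSpace ℂ E] [CompleteSpace E] (H : HilbertModule B E) (F : Submodule ℂ E)
    (P : E →ₗ[ℂ] E) : Prop :=
  ∃ Φ : (B × E →ₗ[ℂ] B × E) → (B × E →ₗ[ℂ] B × E), H.IsBlockCondExp F Φ ∧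
    ∀ y : E, Φ (H.block 0 0 y 0) = H.block 0 0 (P y) 0

variable {B : Type u} [CStarAlgebra B]

theorem not_condExp [Nontrivial B] {F : Submodule ℂ B} {P : B →ₗ[ℂ] B} {x : B} (hx : ‖x‖ < ‖P x‖) :
    ¬ IsCondExp (HilbertModule.self B) F P := by
  rintro ⟨Φ, hΦ, hΦP⟩
  have h0 : (0 : B) ∈ (Set.univ : Set B) := Set.mem_univ _
  have h1 := hΦ.contr _
    ((HilbertModule.self B).block_mem_link₂₁ (F := Set.univ) h0
      (Set.mem_univ x)) ‖x‖ (norm_nonneg x) ?_
  · have h2 := h1 ((1 : B), 0)
    rw [hΦP, HilbertModule.block_apply, HilbertModule.colNorm_zero_right] at h2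
    simp only [HilbertModule.self_act, mul_one, zero_mul, HilbertModule.self_ip, star_zero,
      add_zero, zero_apply, HilbertModule.colNorm_zero_left,
      CStarRing.norm_one] at h2
    linarith
  · rintro ⟨c, z⟩
    rw [HilbertModule.block_apply]
    simp only [HilbertModule.self_act, zero_mul, HilbertModule.self_ip, star_zero,
      add_zero, zero_apply, HilbertModule.colNorm_zero_left]
    calc ‖x * c‖ ≤ ‖x‖ * ‖c‖ := norm_mul_le _ _
      _ ≤ ‖x‖ * (HilbertModule.self B).colNorm (c, z) :=
        mul_le_mul_of_nonneg_left (HilbertModule.norm_fst_le_colNorm _ (c, z)) (norm_nonneg x)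

/-- the idempotent attached to a functional -/
noncomputable def idp (f : B →ₗ[ℂ] ℂ) : B →ₗ[ℂ] B := f.smulRight (1 : B)

lemma idp_apply (f : B →ₗ[ℂ] ℂ) (x : B) : idp f x = f x • (1 : B) := rfl

lemma ternary_idp {f : B →ₗ[ℂ] ℂ} (h1 : f 1 = 1) (hf : ∀ x, f (star x) = star (f x)) :
    IsTernaryIdempotent (HilbertModule.self B) (Submodule.span ℂ {(1 : B)}) (idp f) where
  idem x := by
    rw [idp_apply, idp_apply, map_smul, h1, smul_eq_mul, mul_one]
  range := by
    ext y
    rw [LinearMap.mem_range, Submodule.mem_span_singleton]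
    constructor
    · rintro ⟨x, rfl⟩
      exact ⟨f x, rfl⟩
    · rintro ⟨c, rfl⟩
      exact ⟨c • (1 : B), by rw [idp_apply, map_smul, h1, smul_eq_mul, mul_one]⟩
  ident x y z := by
    simp only [HilbertModule.self_act, HilbertModule.self_ip, idp_apply]
    simp only [smul_mul_assoc, mul_smul_comm, one_mul, mul_one, map_smul, star_smul, star_one,
      smul_eq_mul, hf, smul_smul]
    congr 1
    ring

/-- symmetrisation of a functional -/
noncomputable def sym (g : B →ₗ[ℂ] ℂ) : B →ₗ[ℂ] ℂ where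
  toFun x := (g x + star (g (star x))) / 2
  map_add' x y := by simp only [star_add, map_add]; ring
  map_smul' c x := by
    simp only [star_smul, map_smul, smul_eq_mul, star_mul', star_star, RingHom.id_apply]
    ring

lemma sym_apply (g : B →ₗ[ℂ] ℂ) (x : B) : sym g x = (g x + star (g (star x))) / 2 := rfl

lemma sym_star (g : B →ₗ[ℂ] ℂ) (x : B) : sym g (star x) = star (sym g x) := by
  rw [sym_apply, sym_apply, star_star]
  simp only [Complex.star_def, map_div₀, map_add, Complex.conj_conj, map_ofNat]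
  ring

lemma sym_of_selfAdjoint {g : B →ₗ[ℂ] ℂ} {x : B} (hx : star x = x) {t : ℝ} (ht : g x = t) :
    sym g x = t := by
  rw [sym_apply, hx, ht]
  simp

theorem isTernary : (HilbertModule.self B).IsTernary (Submodule.span ℂ {(1 : B)}) where
  closed := by
    have : FiniteDimensional ℂ (Submodule.span ℂ {(1 : B)}) := inferInstance
    exact (Submodule.span ℂ {(1 : B)}).closed_of_finiteDimensional
  ternary := by
    intro x hx y hy z hz
    rw [Submodule.mem_span_singleton] at hx hy hz ⊢
    obtain ⟨a, rfl⟩ := hx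
    obtain ⟨b, rfl⟩ := hy
    obtain ⟨c, rfl⟩ := hz
    refine ⟨a * (star b * c), ?_⟩
    simp only [HilbertModule.self_act, HilbertModule.self_ip, star_smul, star_one, smul_mul_assoc,
      mul_smul_comm, mul_one, smul_smul]
    congr 1
    ring

/-- a family of selfadjoint elements, containing `1`, which is a basis -/
theorem exists_basis (s : Set B) (hs : ∀ x ∈ s, star x = x)
    (hli : LinearIndepOn ℂ id s) : ∃ b : Set B, s ⊆ b ∧ (∀ x ∈ b, star x = x) ∧
      LinearIndepOn ℂ id b ∧ Submodule.span ℂ b = ⊤ := by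
  obtain ⟨b, hb1, hb2, hb3, hb4⟩ := exists_linearIndepOn_id_extension hli
    (t := {x : B | star x = x}) hs
  refine ⟨b, hb2, fun x hx => hb1 hx, hb4, ?_⟩
  rw [eq_top_iff]
  intro x _
  have h2 : ((realPart x : selfAdjoint B) : B) ∈ Submodule.span ℂ b :=
    hb3 (realPart x).2
  have h3 : ((imaginaryPart x : selfAdjoint B) : B) ∈ Submodule.span ℂ b :=
    hb3 (imaginaryPart x).2
  rw [← realPart_add_I_smul_imaginaryPart x]
  exact Submodule.add_mem _ h2 (Submodule.smul_mem _ _ h3)

/-- hermitian functionals with prescribed real values on such a basis -/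
theorem exists_functional {b : Set B} (hb : ∀ x ∈ b, star x = x) (hli : LinearIndepOn ℂ id b)
    (hsp : Submodule.span ℂ b = ⊤) (w : B → ℝ) :
    ∃ f : B →ₗ[ℂ] ℂ, (∀ x, f (star x) = star (f x)) ∧ ∀ h ∈ b, f h = w h := by
  have hli' : LinearIndependent ℂ (fun x : b => (x : B)) := hli
  let β : Module.Basis b ℂ B := Module.Basis.mk hli' (by rw [Subtype.range_coe, hsp])
  let g : B →ₗ[ℂ] ℂ := β.constr ℂ (fun x => ((w x : ℝ) : ℂ))
  have hg : ∀ h ∈ b, g h = w h := by
    intro h hh
    have h1 : β ⟨h, hh⟩ = h := Module.Basis.mk_apply _ _ _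
    have h2 : g (β ⟨h, hh⟩) = w h := β.constr_basis ℂ _ _
    rwa [h1] at h2
  exact ⟨sym g, sym_star g, fun h hh => sym_of_selfAdjoint (hb h hh) (hg h hh)⟩

/-- **The ternary identity does not characterise conditional expectations over any unital
C*-algebra other than `ℂ`.** Let `B` be a unital C*-algebra which has an element that is not a
scalar multiple of `1`, regarded as a Hilbert module over itself, and let `F = ℂ 1`. Then:
(0) `F` is a closed ternary subspace, and some selfadjoint element is not a scalar.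
(1) For every selfadjoint `h` which is not a scalar and every real `t` there is a linear idempotent
`P` onto `F` satisfying the ternary identity with `P h = t 1`; if `|t| > ‖h‖` it is not a
conditional expectation.
(2) Hence for every `C` there is such an idempotent of norm more than `C`; it is not a
conditional expectation if `C ≥ 1`.
(3) If `B` has infinite dimension there is a discontinuous (unbounded) such idempotent. -/
theorem result (B : Type u) [CStarAlgebra B] [Nontrivial B] (hB : ∃ b : B, ∀ c : ℂ, b ≠ c • 1) :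
    ((HilbertModule.self B).IsTernary (Submodule.span ℂ {(1 : B)}) ∧
      ∃ h : B, star h = h ∧ ∀ c : ℂ, h ≠ c • 1) ∧
    (∀ h : B, star h = h → (∀ c : ℂ, h ≠ c • 1) → ∀ t : ℝ, ∃ P : B →ₗ[ℂ] B,
      IsTernaryIdempotent (HilbertModule.self B) (Submodule.span ℂ {(1 : B)}) P ∧
      P h = (t : ℂ) • 1 ∧
      (‖h‖ < |t| → ¬ IsCondExp (HilbertModule.self B) (Submodule.span ℂ {(1 : B)}) P)) ∧
    (∀ C : ℝ, ∃ P : B →ₗ[ℂ] B,
      IsTernaryIdempotent (HilbertModule.self B) (Submodule.span ℂ {(1 : B)}) P ∧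
      (∃ x : B, C * ‖x‖ < ‖P x‖) ∧
      (1 ≤ C → ¬ IsCondExp (HilbertModule.self B) (Submodule.span ℂ {(1 : B)}) P)) ∧
    (¬ FiniteDimensional ℂ B → ∃ P : B →ₗ[ℂ] B,
      IsTernaryIdempotent (HilbertModule.self B) (Submodule.span ℂ {(1 : B)}) P ∧
      ¬ Continuous P ∧ (∀ C : ℝ, ∃ x : B, C * ‖x‖ < ‖P x‖) ∧
      ¬ IsCondExp (HilbertModule.self B) (Submodule.span ℂ {(1 : B)}) P) := by
  have hsa : ∃ h : B, star h = h ∧ ∀ c : ℂ, h ≠ c • 1 := by
    obtain ⟨b, hb⟩ := hB
    by_contra hcon
    push Not at hcon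
    obtain ⟨c, hc⟩ := hcon _ (realPart b).2
    obtain ⟨d, hd⟩ := hcon _ (imaginaryPart b).2
    apply hb (c + Complex.I * d)
    rw [← realPart_add_I_smul_imaginaryPart b, hc, hd, add_smul, mul_smul]
  have h1 : ∀ h : B, star h = h → (∀ c : ℂ, h ≠ c • 1) → ∀ t : ℝ, ∃ P : B →ₗ[ℂ] B,
      IsTernaryIdempotent (HilbertModule.self B) (Submodule.span ℂ {(1 : B)}) P ∧
      P h = (t : ℂ) • 1 := by
    intro h hh hc t
    have hli : LinearIndepOn ℂ id ({h, 1} : Set B) := by
      apply LinearIndepOn.insert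
      · exact LinearIndepOn.singleton one_ne_zero
      · rw [Set.image_id]
        intro hm
        obtain ⟨c, hc'⟩ := Submodule.mem_span_singleton.1 hm
        exact hc c hc'.symm
    obtain ⟨b, hb1, hb2, hb3, hb4⟩ := exists_basis ({h, 1} : Set B) (by
      rintro x (rfl | rfl)
      · exact hh
      · exact star_one B) hli
    classical
    obtain ⟨f, hf1, hf2⟩ := exists_functional hb2 hb3 hb4 (fun x => if x = 1 then 1 else t)
    have hne : h ≠ 1 := fun h' => hc 1 (by rw [one_smul, h'])
    refine ⟨idp f, ternary_idp ?_ hf1, ?_⟩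
    · rw [hf2 1 (hb1 (by simp))]
      simp
    · rw [idp_apply, hf2 h (hb1 (by simp))]
      simp [hne]
  have h2 : ∀ C : ℝ, ∃ P : B →ₗ[ℂ] B,
      IsTernaryIdempotent (HilbertModule.self B) (Submodule.span ℂ {(1 : B)}) P ∧
      (∃ x : B, C * ‖x‖ < ‖P x‖) := by
    intro C
    obtain ⟨h, hh, hc⟩ := hsa
    obtain ⟨P, hP, hPh⟩ := h1 h hh hc (C * ‖h‖ + 1)
    refine ⟨P, hP, h, ?_⟩
    rw [hPh, norm_smul, CStarRing.norm_one, mul_one, Complex.norm_real, Real.norm_eq_abs]
    exact lt_of_lt_of_le (by linarith) (le_abs_self _)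
  have h3 : ∀ {P : B →ₗ[ℂ] B} {C : ℝ}, 1 ≤ C → (∃ x : B, C * ‖x‖ < ‖P x‖) →
      ¬ IsCondExp (HilbertModule.self B) (Submodule.span ℂ {(1 : B)}) P := by
    rintro P C hC ⟨x, hx⟩
    apply not_condExp (x := x)
    nlinarith [norm_nonneg x]
  refine ⟨⟨isTernary, hsa⟩, ?_, ?_, ?_⟩
  · intro h hh hc t
    obtain ⟨P, hP, hPh⟩ := h1 h hh hc t
    refine ⟨P, hP, hPh, fun ht => not_condExp (x := h) ?_⟩
    rwa [hPh, norm_smul, CStarRing.norm_one, mul_one, Complex.norm_real, Real.norm_eq_abs]
  · intro C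
    obtain ⟨P, hP, hx⟩ := h2 C
    exact ⟨P, hP, hx, fun hC => h3 hC hx⟩
  · intro hfd
    obtain ⟨b, hb1, hb2, hb3, hb4⟩ := exists_basis ({1} : Set B) (by
      rintro x rfl
      exact star_one B) (LinearIndepOn.singleton one_ne_zero)
    have hbi : b.Infinite := by
      intro hfin
      apply hfd
      have : Finite b := hfin
      exact ⟨⟨hfin.toFinset, by rw [Set.Finite.coe_toFinset]; exact hb4⟩⟩
    have hbi' : (b \ {1}).Infinite := hbi.sdiff (Set.finite_singleton 1)
    let e : ℕ ↪ (b \ {1} : Set B) := hbi'.natEmbedding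
    let w : B → ℝ := Function.extend (fun n => (e n : B)) (fun n => ((n : ℝ) + 1) * ‖(e n : B)‖)
      (fun _ => 1)
    have hinj : Function.Injective (fun n => (e n : B)) := fun m n h => e.injective (Subtype.ext h)
    have hw1 : w 1 = 1 := by
      apply Function.extend_apply'
      rintro ⟨n, hn⟩
      exact (e n).2.2 hn
    have hwn : ∀ n, w (e n) = ((n : ℝ) + 1) * ‖(e n : B)‖ := fun n => hinj.extend_apply _ _ n
    obtain ⟨f, hf1, hf2⟩ := exists_functional hb2 hb3 hb4 w
    have hP : IsTernaryIdempotent (HilbertModule.self B) (Submodule.span ℂ {(1 : B)}) (idp f) := by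
      apply ternary_idp _ hf1
      rw [hf2 1 (hb1 rfl), hw1]
      simp
    have hub : ∀ C : ℝ, ∃ x : B, C * ‖x‖ < ‖idp f x‖ := by
      intro C
      obtain ⟨n, hn⟩ := exists_nat_gt C
      refine ⟨e n, ?_⟩
      have hne : (e n : B) ≠ 0 := by
        intro h0
        have hli' : LinearIndependent ℂ (fun x : b => (x : B)) := hb3
        exact hli'.ne_zero ⟨e n, (e n).2.1⟩ h0
      have hpos : 0 < ‖(e n : B)‖ := norm_pos_iff.2 hne
      rw [idp_apply, norm_smul, CStarRing.norm_one, mul_one, hf2 _ (e n).2.1, hwn,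
        Complex.norm_real, Real.norm_eq_abs, abs_of_pos (by positivity)]
      nlinarith
    refine ⟨idp f, hP, ?_, hub, h3 le_rfl (hub 1)⟩
    intro hcont
    let L : B →L[ℂ] B := ⟨idp f, hcont⟩
    obtain ⟨x, hx⟩ := hub ‖L‖
    exact absurd (L.le_opNorm x) (not_le.2 hx)

end Pool.Agent.Results.MP_0a1256_an.EveryUnitalAlgebra
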